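import Mathlib

set_option autoImplicit false

/-!
# The atomic singular inner function and its Fourier coefficients

`F z = exp ((z + 1) / (z - 1))` is analytic and bounded by one on the unit disc and has modulus one
on the unit circle.  The Fourier coefficients of its boundary values are its Taylor coefficients.
-/

namespace Pool.Agent.L7h55.FS

open MeasureTheory Filter Topology

/-- The atomic singular inner function. -/
noncomputable def F (z : ℂ) : ℂ := Complex.exp ((z + 1) / (z - 1))

lemma re_frac (z : ℂ) :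
    ((z + 1) / (z - 1)).re = (Complex.normSq z - 1) / Complex.normSq (z - 1) := by
  rw [Complex.div_re, Complex.normSq_apply z]
  simp only [Complex.add_re, Complex.sub_re, Complex.one_re, Complex.add_im, Complex.sub_im,
    Complex.one_im]
  ring

lemma norm_F (z : ℂ) :
    ‖F z‖ = Real.exp ((Complex.normSq z - 1) / Complex.normSq (z - 1)) := by
  rw [F, Complex.norm_exp, re_frac]

lemma norm_F_le {z : ℂ} (hz : ‖z‖ ≤ 1) : ‖F z‖ ≤ 1 := by
  rw [norm_F, Real.exp_le_one_iff]
  apply div_nonpos_of_nonpos_of_nonneg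
  · rw [Complex.normSq_eq_norm_sq]; nlinarith [norm_nonneg z]
  · exact Complex.normSq_nonneg _

lemma norm_F_eq {z : ℂ} (hz : ‖z‖ = 1) : ‖F z‖ = 1 := by
  rw [norm_F, Complex.normSq_eq_norm_sq, hz]; simp

lemma differentiableAt_F {z : ℂ} (hz : z ≠ 1) : DifferentiableAt ℂ F z := by
  unfold F
  apply DifferentiableAt.cexp
  apply DifferentiableAt.div
  · fun_prop
  · fun_prop
  · exact sub_ne_zero.mpr hz

lemma differentiableOn_F : DifferentiableOn ℂ F (Metric.ball 0 1) := by
  intro z hz
  apply DifferentiableAt.differentiableWithinAt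
  apply differentiableAt_F
  rintro rfl
  simp at hz

lemma measurable_F : Measurable F := by
  unfold F
  fun_prop

/-- Taylor coefficients of `F`. -/
noncomputable def c (n : ℕ) : ℂ := (n.factorial : ℂ)⁻¹ * iteratedDeriv n F 0

lemma hasSum_c {z : ℂ} (hz : ‖z‖ < 1) : HasSum (fun n => c n * z ^ n) (F z) := by
  have h := Complex.hasSum_taylorSeries_on_ball differentiableOn_F
    (z := z) (by simpa using hz)
  convert! h using 1
  funext n
  simp only [c, sub_zero, smul_eq_mul]
  ring

lemma summable_c {r : ℝ} (h0 : 0 ≤ r) (h1 : r < 1) : Summable (fun n => ‖c n‖ * r ^ n) := by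
  have h := (hasSum_c (z := (r : ℂ)) (by rw [Complex.norm_real, Real.norm_of_nonneg h0]; exact h1)
    ).summable.norm
  simpa only [norm_mul, norm_pow, Complex.norm_real, Real.norm_of_nonneg h0] using h

/-- The boundary function of `F`. -/
noncomputable def bdry (t : AddCircle (1 : ℝ)) : ℂ := F (fourier 1 t)

lemma norm_fourier_one (n : ℤ) (t : AddCircle (1 : ℝ)) : ‖(fourier n t : ℂ)‖ = 1 := by
  rw [fourier_apply]; exact Circle.norm_coe _

lemma norm_bdry (t : AddCircle (1 : ℝ)) : ‖bdry t‖ = 1 := norm_F_eq (norm_fourier_one 1 t)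

lemma measurable_bdry : Measurable bdry :=
  measurable_F.comp (ContinuousMap.continuous _).measurable

lemma fourier_natCast (k : ℕ) (t : AddCircle (1 : ℝ)) : (fourier (k : ℤ) t : ℂ) = (fourier 1 t) ^ k := by
  induction k with
  | zero => simp
  | succ k ih =>
    rw [pow_succ, ← ih, ← fourier_add]
    push_cast
    rfl

lemma fourierCoeff_dilate {r : ℝ} (h0 : 0 ≤ r) (h1 : r < 1) (n : ℤ) :
    HasSum (fun k : ℕ => (c k * r ^ k) * (Pi.single (k : ℤ) (1 : ℂ) : ℤ → ℂ) n)
      (fourierCoeff (fun t : AddCircle (1 : ℝ) => F (r * fourier 1 t)) n) := by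
  have hF : ∀ t : AddCircle (1 : ℝ), HasSum (fun k : ℕ => fourier (-n) t *
      ((c k * r ^ k) * fourier (k : ℤ) t)) (fourier (-n) t * F (r * fourier 1 t)) := by
    intro t
    apply HasSum.mul_left
    have h := hasSum_c (z := (r : ℂ) * fourier 1 t) (by
      rw [norm_mul, norm_fourier_one, mul_one, Complex.norm_real, Real.norm_of_nonneg h0]
      exact h1)
    convert! h using 1
    funext k
    rw [mul_pow, fourier_natCast]
    ring
  have hint : ∀ k : ℕ, ∫ t : AddCircle (1 : ℝ), fourier (-n) t *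
      ((c k * r ^ k) * fourier (k : ℤ) t) ∂AddCircle.haarAddCircle =
      (c k * r ^ k) * (Pi.single (k : ℤ) (1 : ℂ) : ℤ → ℂ) n := by
    intro k
    rw [← fourierCoeff_fourier (T := (1 : ℝ)) (k : ℤ), fourierCoeff, ← integral_const_mul]
    congr 1
    funext t
    rw [smul_eq_mul]
    ring
  have hcont : ∀ k : ℕ, Continuous fun t : AddCircle (1 : ℝ) => fourier (-n) t *
      ((c k * (r : ℂ) ^ k) * fourier (k : ℤ) t) := by
    intro k
    exact (ContinuousMap.continuous _).mul (continuous_const.mul (ContinuousMap.continuous _))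
  have hnorm : ∀ k : ℕ, ∫ t : AddCircle (1 : ℝ), ‖fourier (-n) t *
      ((c k * (r : ℂ) ^ k) * fourier (k : ℤ) t)‖ ∂AddCircle.haarAddCircle = ‖c k‖ * r ^ k := by
    intro k
    have : ∀ t : AddCircle (1 : ℝ), ‖fourier (-n) t *
      ((c k * (r : ℂ) ^ k) * fourier (k : ℤ) t)‖ = ‖c k‖ * r ^ k := by
      intro t
      rw [norm_mul, norm_mul, norm_mul, norm_fourier_one, norm_fourier_one, norm_pow,
        Complex.norm_real, Real.norm_of_nonneg h0]
      ring
    simp_rw [this]
    simp
  have h := hasSum_integral_of_summable_integral_norm (μ := AddCircle.haarAddCircle)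
    (F := fun (k : ℕ) (t : AddCircle (1 : ℝ)) => fourier (-n) t *
      ((c k * (r : ℂ) ^ k) * fourier (k : ℤ) t))
    (fun k => (hcont k).integrable_of_hasCompactSupport (HasCompactSupport.of_compactSpace _))
    (by simp_rw [hnorm]; exact summable_c h0 h1)
  simp_rw [hint] at h
  convert! h using 1
  unfold fourierCoeff
  congr 1
  funext t
  rw [smul_eq_mul, (hF t).tsum_eq]

lemma fourierCoeff_dilate_nat {r : ℝ} (h0 : 0 ≤ r) (h1 : r < 1) (n : ℕ) :
    fourierCoeff (fun t : AddCircle (1 : ℝ) => F (r * fourier 1 t)) n = c n * r ^ n := by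
  rw [← (fourierCoeff_dilate h0 h1 n).tsum_eq, tsum_eq_single n]
  · simp
  · intro k hk
    rw [Pi.single_eq_of_ne, mul_zero]
    exact_mod_cast hk.symm

lemma fourierCoeff_dilate_neg {r : ℝ} (h0 : 0 ≤ r) (h1 : r < 1) (n : ℤ) (hn : n < 0) :
    fourierCoeff (fun t : AddCircle (1 : ℝ) => F (r * fourier 1 t)) n = 0 := by
  rw [← (fourierCoeff_dilate h0 h1 n).tsum_eq]
  have : ∀ k : ℕ, (c k * (r : ℂ) ^ k) * (Pi.single (k : ℤ) (1 : ℂ) : ℤ → ℂ) n = 0 := by
    intro k
    rw [Pi.single_eq_of_ne, mul_zero]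
    omega
  simp_rw [this, tsum_zero]

/-- radii tending to one -/
noncomputable def rad (j : ℕ) : ℝ := 1 - 1 / ((j : ℝ) + 2)

lemma rad_nonneg (j : ℕ) : 0 ≤ rad j := by
  unfold rad
  have : (1 : ℝ) / ((j : ℝ) + 2) ≤ 1 := by
    rw [div_le_one (by positivity)]
    have : (0 : ℝ) ≤ j := by positivity
    linarith
  linarith

lemma rad_lt (j : ℕ) : rad j < 1 := by
  unfold rad
  have : (0 : ℝ) < 1 / ((j : ℝ) + 2) := by positivity
  linarith

lemma tendsto_rad : Tendsto rad atTop (𝓝 1) := by
  unfold rad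
  have h : Tendsto (fun j : ℕ => (1 : ℝ) / ((j : ℝ) + 2)) atTop (𝓝 0) := by
    apply Tendsto.div_atTop tendsto_const_nhds
    exact tendsto_atTop_add_const_right _ _ tendsto_natCast_atTop_atTop
  simpa using h.const_sub 1

lemma ae_ne : ∀ᵐ t : AddCircle (1 : ℝ) ∂AddCircle.haarAddCircle, (fourier 1 t : ℂ) ≠ 1 := by
  have h : {t : AddCircle (1 : ℝ) | ¬ (fourier 1 t : ℂ) ≠ 1} ⊆ {0} := by
    intro t ht
    have ht : (fourier 1 t : ℂ) = 1 := not_not.mp ht
    rw [fourier_one] at ht
    have h2 : AddCircle.toCircle t = AddCircle.toCircle (0 : AddCircle (1 : ℝ)) := by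
      rw [AddCircle.toCircle_zero]
      exact Subtype.ext ht
    exact AddCircle.injective_toCircle one_ne_zero h2
  rw [ae_iff]
  refine measure_mono_null h ?_
  have : Nontrivial (AddCircle (1 : ℝ)) := by
    refine ⟨⟨((1 / 2 : ℝ) : AddCircle (1 : ℝ)), 0, ?_⟩⟩
    intro h0
    have h1 := congrArg (fourier 1) h0
    have h2 : (fourier 1 ((1 / 2 : ℝ) : AddCircle (1 : ℝ)) : ℂ) = -1 := by
      rw [fourier_coe_apply]
      have : 2 * (Real.pi : ℂ) * Complex.I * ((1 : ℤ) : ℂ) * ((1 / 2 : ℝ) : ℂ) / ((1 : ℝ) : ℂ) =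
          Real.pi * Complex.I := by push_cast; ring
      rw [this, Complex.exp_pi_mul_I]
    rw [h2, fourier_eval_zero] at h1
    norm_num at h1
  exact measure_singleton _

lemma tendsto_fourierCoeff (n : ℤ) :
    Tendsto (fun j => fourierCoeff (fun t : AddCircle (1 : ℝ) => F (rad j * fourier 1 t)) n)
      atTop (𝓝 (fourierCoeff bdry n)) := by
  unfold fourierCoeff
  apply tendsto_integral_of_dominated_convergence (fun _ => (1 : ℝ))
  · intro j
    apply Measurable.aestronglyMeasurable
    have m1 : Measurable fun t : AddCircle (1 : ℝ) => (fourier (-n) t : ℂ) :=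
      (ContinuousMap.continuous (fourier (-n))).measurable
    have m2 : Measurable fun t : AddCircle (1 : ℝ) => F ((rad j : ℂ) * fourier 1 t) :=
      measurable_F.comp ((ContinuousMap.continuous (fourier 1)).measurable.const_mul _)
    exact m1.smul m2
  · exact integrable_const _
  · intro j
    refine Eventually.of_forall fun t => ?_
    rw [smul_eq_mul, norm_mul, norm_fourier_one, one_mul]
    apply norm_F_le
    rw [norm_mul, norm_fourier_one, mul_one, Complex.norm_real, Real.norm_of_nonneg (rad_nonneg j)]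
    exact (rad_lt j).le
  · filter_upwards [ae_ne] with t ht
    apply Tendsto.smul tendsto_const_nhds
    have hc : ContinuousAt F (fourier 1 t) := (differentiableAt_F ht).continuousAt
    apply hc.tendsto.comp
    have : Tendsto (fun j => (rad j : ℂ) * (fourier 1 t : ℂ)) atTop
        (𝓝 (((1 : ℝ) : ℂ) * (fourier 1 t : ℂ))) :=
      ((Complex.continuous_ofReal.tendsto 1).comp tendsto_rad).mul_const _
    simpa using this

lemma fourierCoeff_bdry_nat (n : ℕ) : fourierCoeff bdry n = c n := by
  have h := tendsto_fourierCoeff n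
  simp_rw [fourierCoeff_dilate_nat (rad_nonneg _) (rad_lt _)] at h
  refine tendsto_nhds_unique h ?_
  have h2 : Tendsto (fun j => c n * (rad j : ℂ) ^ n) atTop (𝓝 (c n * ((1 : ℝ) : ℂ) ^ n)) :=
    (((Complex.continuous_ofReal.tendsto 1).comp tendsto_rad).pow n).const_mul _
  simpa using h2

lemma fourierCoeff_bdry_neg (n : ℤ) (hn : n < 0) : fourierCoeff bdry n = 0 := by
  have h := tendsto_fourierCoeff n
  have : ∀ j, fourierCoeff (fun t : AddCircle (1 : ℝ) => F (rad j * fourier 1 t)) n = 0 :=
    fun j => fourierCoeff_dilate_neg (rad_nonneg j) (rad_lt j) n hn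
  simp_rw [this] at h
  exact tendsto_nhds_unique h tendsto_const_nhds

/-- Fourier coefficients of the singular inner function. -/
noncomputable def s (n : ℤ) : ℂ := fourierCoeff bdry n

lemma s_neg {n : ℤ} (hn : n < 0) : s n = 0 := fourierCoeff_bdry_neg n hn

lemma bdry_neg (t : AddCircle (1 : ℝ)) : bdry (-t) = (starRingEnd ℂ) (bdry t) := by
  unfold bdry F
  rw [← Complex.exp_conj, map_div₀, map_add, map_sub, map_one]
  have : (fourier 1 (-t) : ℂ) = (starRingEnd ℂ) (fourier 1 t) := by
    rw [← fourier_neg, fourier_apply, fourier_apply]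
    simp
  rw [this]

lemma s_real (n : ℤ) : (starRingEnd ℂ) (s n) = s n := by
  unfold s fourierCoeff
  rw [← integral_conj, ← integral_neg_eq_self]
  congr 1
  funext t
  rw [smul_eq_mul, smul_eq_mul, map_mul, bdry_neg, Complex.conj_conj]
  congr 1
  rw [← fourier_neg, fourier_apply, fourier_apply]
  simp

lemma fourierCoeff_conj (n : ℤ) :
    fourierCoeff (fun t => (starRingEnd ℂ) (bdry t)) n = s (-n) := by
  rw [← s_real]
  unfold s fourierCoeff
  rw [← integral_conj]
  congr 1
  funext t
  rw [smul_eq_mul, smul_eq_mul, map_mul, ← fourier_neg, neg_neg]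

lemma hasSum_s {r : ℝ} (h0 : 0 ≤ r) (h1 : r < 1) :
    HasSum (fun n : ℕ => s n * (r : ℂ) ^ n) (F r) := by
  have h := hasSum_c (z := (r : ℂ)) (by rw [Complex.norm_real, Real.norm_of_nonneg h0]; exact h1)
  convert h using 1
  funext n
  rw [s, fourierCoeff_bdry_nat]

lemma norm_F_real {r : ℝ} (h1 : r < 1) : ‖F r‖ = Real.exp (-((1 + r) / (1 - r))) := by
  rw [norm_F]
  congr 1
  have h2 : ((r : ℂ) - 1) = ((r - 1 : ℝ) : ℂ) := by push_cast; ring
  rw [h2, Complex.normSq_ofReal, Complex.normSq_ofReal]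
  have h3 : 1 - r ≠ 0 := by linarith
  have h4 : r - 1 ≠ 0 := by linarith
  field_simp
  ring

end Pool.Agent.L7h55.FS
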