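import Pool.Agent.L7h55.FS.Inner

set_option autoImplicit false

/-!
# The Toeplitz isometry of the singular inner function
-/

namespace Pool.Agent.L7h55.FS

open MeasureTheory Filter Topology
open scoped InnerProductSpace

/-- the space `ℓ²` -/
noncomputable abbrev H := lp (fun _ : ℕ => ℂ) 2

/-- basis vectors -/
noncomputable def e (k : ℕ) : H := lp.single 2 k (1 : ℂ)

lemma inner_e (k : ℕ) (x : H) : ⟪e k, x⟫_ℂ = x k := by
  unfold e
  rw [lp.inner_single_left]
  simp

lemma e_apply (k i : ℕ) : e k i = if i = k then 1 else 0 := by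
  unfold e
  rw [lp.single_apply]
  split_ifs with h
  · subst h; simp
  · rw [Pi.single_eq_of_ne h]

lemma norm_e (k : ℕ) : ‖e k‖ = 1 := by
  unfold e
  rw [lp.norm_single (by norm_num)]
  simp

lemma H_ext {x y : H} (h : ∀ i, x i = y i) : x = y := lp.ext (funext h)

lemma hasSum_normsq (x : H) : HasSum (fun i => ‖x i‖ ^ 2) (‖x‖ ^ 2) := by
  have h := lp.hasSum_norm (p := 2) (by norm_num) x
  simpa using h

lemma hasSum_inner' (x y : H) : HasSum (fun i => (starRingEnd ℂ) (x i) * y i) ⟪x, y⟫_ℂ := by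
  have h := lp.hasSum_inner (𝕜 := ℂ) x y
  convert! h using 1
  funext i
  rw [RCLike.inner_apply, mul_comm]

/-- the functions `e_k b` -/
noncomputable def gfun (k : ℤ) (t : AddCircle (1 : ℝ)) : ℂ := fourier k t * bdry t

lemma memLp_gfun (k : ℤ) : MemLp (gfun k) 2 AddCircle.haarAddCircle := by
  apply MemLp.of_bound (C := 1)
  · apply Measurable.aestronglyMeasurable
    exact (ContinuousMap.continuous (fourier k)).measurable.mul measurable_bdry
  · refine Eventually.of_forall fun t => ?_
    unfold gfun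
    rw [norm_mul, norm_fourier_one, norm_bdry, one_mul]

/-- the element of `L²` -/
noncomputable def g (k : ℤ) : Lp ℂ 2 (AddCircle.haarAddCircle (T := (1 : ℝ))) := (memLp_gfun k).toLp

lemma fourierCoeff_g (k i : ℤ) : fourierCoeff (g k) i = s (i - k) := by
  unfold g
  rw [fourierCoeff_congr_ae (memLp_gfun k).coeFn_toLp]
  unfold s fourierCoeff gfun
  congr 1
  funext t
  rw [smul_eq_mul, smul_eq_mul, ← mul_assoc, ← fourier_add]
  congr 3
  ring

lemma inner_g (j k : ℤ) : ⟪g j, g k⟫_ℂ = if j = k then 1 else 0 := by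
  have h := (orthonormal_iff_ite.mp (orthonormal_fourier (T := (1 : ℝ)))) j k
  rw [← h, L2.inner_def, L2.inner_def]
  apply integral_congr_ae
  filter_upwards [(memLp_gfun j).coeFn_toLp, (memLp_gfun k).coeFn_toLp, coeFn_fourierLp 2 j,
    coeFn_fourierLp 2 k] with t h1 h2 h3 h4
  unfold g
  rw [h1, h2, h3, h4, RCLike.inner_apply, RCLike.inner_apply]
  unfold gfun
  rw [map_mul]
  have hb : bdry t * (starRingEnd ℂ) (bdry t) = 1 := by
    rw [Complex.mul_conj, Complex.normSq_eq_norm_sq, norm_bdry]; simp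
  linear_combination ((fourier k t : ℂ) * (starRingEnd ℂ) (fourier j t)) * hb

lemma hasSum_s_ortho (j k : ℕ) :
    HasSum (fun i : ℕ => (starRingEnd ℂ) (s ((i : ℤ) - j)) * s ((i : ℤ) - k))
      (if j = k then 1 else 0) := by
  have h := lp.hasSum_inner (𝕜 := ℂ) (fourierBasis.repr (g j)) (fourierBasis.repr (g k))
  rw [LinearIsometryEquiv.inner_map_map, inner_g] at h
  simp only [fourierBasis_repr, fourierCoeff_g] at h
  have hinj : Function.Injective (fun i : ℕ => (i : ℤ)) := Nat.cast_injective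
  rw [← hinj.hasSum_iff] at h
  · convert! h using 1
    · funext i
      simp only [Function.comp]
      rw [RCLike.inner_apply, mul_comm]
    · simp
  · intro i hi
    have : i < 0 := by
      by_contra h0
      push Not at h0
      exact hi ⟨i.toNat, by simp [h0]⟩
    rw [s_neg (show i - (k : ℤ) < 0 by omega)]
    simp

lemma summable_sq (k : ℕ) : Summable (fun i : ℕ => ‖s ((i : ℤ) - k)‖ ^ 2) := by
  have h := (hasSum_s_ortho k k).summable.norm
  convert! h using 1
  funext i
  rw [norm_mul, RCLike.norm_conj, sq]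

/-- the columns of the Toeplitz matrix -/
noncomputable def v (k : ℕ) : H :=
  ⟨fun i : ℕ => s ((i : ℤ) - k), memℓp_gen (by simpa using summable_sq k)⟩

lemma v_apply (k i : ℕ) : v k i = s ((i : ℤ) - k) := rfl

lemma orthonormal_v : Orthonormal ℂ v := by
  rw [orthonormal_iff_ite]
  intro j k
  exact (hasSum_inner' (v j) (v k)).unique (hasSum_s_ortho j k)

/-- The Toeplitz isometry. -/
noncomputable def Tiso : H →ₗᵢ[ℂ] H := orthonormal_v.orthogonalFamily.linearIsometry

/-- The Toeplitz operator. -/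
noncomputable def T : H →L[ℂ] H := Tiso.toContinuousLinearMap

/-- Its adjoint. -/
noncomputable def T' : H →L[ℂ] H := ContinuousLinearMap.adjoint T

lemma T_e (k : ℕ) : T (e k) = v k := by
  unfold T e Tiso
  have h := orthonormal_v.orthogonalFamily.linearIsometry_apply_single (i := k) (1 : ℂ)
  rw [LinearIsometry.coe_toContinuousLinearMap, h]
  simp

lemma norm_T (x : H) : ‖T x‖ = ‖x‖ := Tiso.norm_map x

lemma norm_T'_le (x : H) : ‖T' x‖ ≤ ‖x‖ := by
  have h1 : ‖T'‖ ≤ 1 := by
    unfold T'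
    rw [LinearIsometryEquiv.norm_map]
    exact Tiso.norm_toContinuousLinearMap_le
  calc ‖T' x‖ ≤ ‖T'‖ * ‖x‖ := T'.le_opNorm x
    _ ≤ 1 * ‖x‖ := by gcongr
    _ = ‖x‖ := one_mul _

lemma T'_T (x : H) : T' (T x) = x := by
  apply ext_inner_right ℂ
  intro y
  unfold T'
  rw [ContinuousLinearMap.adjoint_inner_left]
  exact Tiso.inner_map_map x y

lemma T'_apply (x : H) (j : ℕ) : (T' x) j = ⟪v j, x⟫_ℂ := by
  rw [← inner_e]
  unfold T'
  rw [ContinuousLinearMap.adjoint_inner_right, T_e]

lemma T'_e (j k : ℕ) : (T' (e k)) j = s ((k : ℤ) - j) := by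
  rw [T'_apply, ← inner_conj_symm, inner_e, v_apply, s_real]

end Pool.Agent.L7h55.FS
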