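import Pool.Agent.L7h55.FS.Low

set_option autoImplicit false

/-!
# Strong limits, and sequences in the ideal
-/

namespace Pool.Agent.L7h55.FS

open MeasureTheory Filter Topology
open scoped InnerProductSpace

/-- contractions converging strongly -/
lemma strong_comp {B : ℕ → H →L[ℂ] H} {B0 : H →L[ℂ] H} (hb : ∀ n x, ‖B n x‖ ≤ ‖x‖)
    (h : ∀ x, Tendsto (fun n => B n x) atTop (𝓝 (B0 x))) {x : ℕ → H} {x0 : H}
    (hx : Tendsto x atTop (𝓝 x0)) : Tendsto (fun n => B n (x n)) atTop (𝓝 (B0 x0)) := by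
  have h1 : Tendsto (fun n => B n (x n - x0)) atTop (𝓝 0) := by
    apply squeeze_zero_norm (a := fun n => ‖x n - x0‖) (fun n => hb n _)
    have := (hx.sub_const x0).norm
    simpa using this
  have h2 := h1.add (h x0)
  rw [zero_add] at h2
  refine h2.congr fun n => ?_
  rw [map_sub]
  abel

section

variable {P W : ℕ → H →L[ℂ] H} (hP : IsP P) (hW : IsW W)

include hP in
lemma strong_P {x : ℕ → H} {x0 : H} (hx : Tendsto x atTop (𝓝 x0)) :
    Tendsto (fun n => P n (x n)) atTop (𝓝 x0) :=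
  strong_comp (B0 := ContinuousLinearMap.id ℂ H) (norm_P_le hP) (tendsto_P hP) hx

include hP in
lemma strong_A {x : ℕ → H} {x0 : H} (hx : Tendsto x atTop (𝓝 x0)) :
    Tendsto (fun n => A P n (x n)) atTop (𝓝 (T x0)) := by
  have h1 := strong_P hP hx
  have h2 := (T.continuous.tendsto x0).comp h1
  exact strong_P hP h2

include hP in
lemma strong_A' {x : ℕ → H} {x0 : H} (hx : Tendsto x atTop (𝓝 x0)) :
    Tendsto (fun n => A' P n (x n)) atTop (𝓝 (T' x0)) := by
  have h1 := strong_P hP hx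
  have h2 := (T'.continuous.tendsto x0).comp h1
  exact strong_P hP h2

include hP in
lemma tendsto_Z (x : H) : Tendsto (fun n => Z P n x) atTop (𝓝 0) := by
  have h0 : Tendsto (fun _ : ℕ => x) atTop (𝓝 x) := tendsto_const_nhds
  have h1 : Tendsto (fun n => P n x - A' P n (A P n x)) atTop (𝓝 (x - T' (T x))) :=
    (strong_P hP h0).sub (strong_A' hP (strong_A hP h0))
  have h2 := (strong_P hP h1).sub (strong_A hP (strong_A' hP h1))
  rw [T'_T, sub_self, map_zero, map_zero, sub_zero] at h2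
  refine h2.congr fun n => ?_
  rw [Z_apply]

include hP hW in
lemma tendsto_WZW (x : H) : Tendsto (fun n => W n (Z P n (W n x))) atTop (𝓝 0) := by
  have h0 : Tendsto (fun _ : ℕ => x) atTop (𝓝 x) := tendsto_const_nhds
  have h1 : Tendsto (fun n => P n x - A P n (A' P n x)) atTop (𝓝 (x - T (T' x))) :=
    (strong_P hP h0).sub (strong_A hP (strong_A' hP h0))
  have h2 := (strong_P hP h1).sub (strong_A' hP (strong_A hP h1))
  rw [T'_T, sub_self] at h2
  refine h2.congr fun n => ?_
  rw [WZW hP hW]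

end

lemma coord_tendsto (x : H) : Tendsto (fun n => ‖x n‖) atTop (𝓝 0) := by
  have h := (hasSum_normsq x).summable.tendsto_atTop_zero
  have h2 := h.sqrt
  simpa [Real.sqrt_sq] using h2

/-- A compact operator maps the basis vectors to a null sequence. -/
lemma compact_e {K : H →L[ℂ] H} (hK : IsCompactOperator K) :
    Tendsto (fun n => K (e n)) atTop (𝓝 0) := by
  by_contra hcon
  rw [Metric.tendsto_atTop] at hcon
  push Not at hcon
  obtain ⟨ε, hε, hcon⟩ := hcon
  choose f hf1 hf2 using hcon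
  have hcpt : IsCompact (closure (K '' Metric.closedBall 0 1)) :=
    hK.isCompact_closure_image_closedBall 1
  have hmem : ∀ N, K (e (f N)) ∈ closure (K '' Metric.closedBall (0 : H) 1) := by
    intro N
    apply subset_closure
    refine ⟨e (f N), ?_, rfl⟩
    simp [norm_e]
  obtain ⟨a, _, φ, hφ, hlim⟩ := hcpt.tendsto_subseq hmem
  have hf : Tendsto (fun N => f (φ N)) atTop atTop := by
    apply tendsto_atTop_mono (fun N => hf1 (φ N)) hφ.tendsto_atTop
  have ha : a = 0 := by
    have h1 : Tendsto (fun N => ⟪a, K (e (f (φ N)))⟫_ℂ) atTop (𝓝 ⟪a, a⟫_ℂ) :=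
      Tendsto.inner tendsto_const_nhds hlim
    have h2 : Tendsto (fun N => ⟪a, K (e (f (φ N)))⟫_ℂ) atTop (𝓝 0) := by
      have h3 : ∀ N, ⟪a, K (e (f (φ N)))⟫_ℂ =
          (starRingEnd ℂ) ((ContinuousLinearMap.adjoint K a) (f (φ N))) := by
        intro N
        rw [← inner_e, inner_conj_symm, ContinuousLinearMap.adjoint_inner_left]
      simp_rw [h3]
      apply squeeze_zero_norm (a := fun N => ‖(ContinuousLinearMap.adjoint K a) (f (φ N))‖)
      · intro N; rw [RCLike.norm_conj]
      · exact (coord_tendsto _).comp hf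
    have h4 := tendsto_nhds_unique h1 h2
    exact inner_self_eq_zero.mp h4
  rw [ha] at hlim
  have h5 : Tendsto (fun N => ‖K (e (f (φ N)))‖) atTop (𝓝 0) := by
    simpa using hlim.norm
  have h6 : ε ≤ 0 := by
    apply ge_of_tendsto h5
    refine Eventually.of_forall fun N => ?_
    have := hf2 (φ N)
    rwa [dist_zero_right] at this
  linarith

section

variable {P W : ℕ → H →L[ℂ] H} (hP : IsP P) (hW : IsW W)

include hP in
lemma P_e {n k : ℕ} (h : k ≤ n) : P n (e k) = e k := by
  apply H_ext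
  intro i
  rw [hP]
  split_ifs with h1
  · rfl
  · rw [e_apply, if_neg (by omega)]

include hW in
lemma W_e {n k : ℕ} (h : k ≤ n) : W n (e k) = e (n - k) := by
  apply H_ext
  intro i
  rw [hW, e_apply, e_apply]
  by_cases h1 : i ≤ n
  · rw [if_pos h1]
    by_cases h2 : n - i = k
    · rw [if_pos h2, if_pos (by omega)]
    · rw [if_neg h2, if_neg (by omega)]
  · rw [if_neg h1, if_neg (by omega)]

lemma opNorm_tendsto_inner {C : ℕ → H →L[ℂ] H} (hC : Tendsto (fun n => ‖C n‖) atTop (𝓝 0))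
    (a b : ℕ → ℕ) : Tendsto (fun n => ⟪e (a n), C n (e (b n))⟫_ℂ) atTop (𝓝 0) := by
  apply squeeze_zero_norm (a := fun n => ‖C n‖) _ hC
  intro n
  calc ‖⟪e (a n), C n (e (b n))⟫_ℂ‖ ≤ ‖e (a n)‖ * ‖C n (e (b n))‖ := norm_inner_le_norm _ _
    _ ≤ 1 * (‖C n‖ * ‖e (b n)‖) := by
        rw [norm_e]
        gcongr
        exact (C n).le_opNorm _
    _ = ‖C n‖ := by rw [norm_e]; ring

lemma eq_zero_of_inner {K : H →L[ℂ] H} (h : ∀ j k, ⟪e j, K (e k)⟫_ℂ = 0) : K = 0 := by
  have h1 : ∀ k, K (e k) = 0 := by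
    intro k
    apply H_ext
    intro j
    rw [← inner_e, h]
    rfl
  ext1 x
  have h2 := (lp.hasSum_single (p := 2) (by norm_num) x)
  have h3 := h2.mapL K
  have h4 : ∀ i, K (lp.single 2 i (x i)) = 0 := by
    intro i
    have : (lp.single 2 i (x i) : H) = (x i) • e i := by
      unfold e
      rw [← lp.single_smul]
      simp
    rw [this, map_smul, h1, smul_zero]
  simp only [h4] at h3
  exact (h3.unique hasSum_zero)

include hP hW in
/-- If `Z n = P n K P n + W n K' W n + C n` with `K`, `K'` compact and `‖C n‖ → 0`, and the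
strong limits of `Z n` and `W n Z n W n` are zero, then `‖Z n‖ → 0`. -/
theorem ideal_null {Y : ℕ → H →L[ℂ] H}
    (h1 : ∀ x, Tendsto (fun n => Y n x) atTop (𝓝 0))
    (h2 : ∀ x, Tendsto (fun n => W n (Y n (W n x))) atTop (𝓝 0))
    {K K' : H →L[ℂ] H} (_hK : IsCompactOperator K) (hK' : IsCompactOperator K')
    {C : ℕ → H →L[ℂ] H} (hC : Tendsto (fun n => ‖C n‖) atTop (𝓝 0))
    (hY : ∀ n, Y n = P n * K * P n + W n * K' * W n + C n) :
    Tendsto (fun n => ‖Y n‖) atTop (𝓝 0) := by
  have hWin : ∀ n (x y : H), ⟪W n x, y⟫_ℂ = ⟪x, W n y⟫_ℂ := by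
    intro n x y
    have ha : HasSum (fun i => (starRingEnd ℂ) ((W n x) i) * y i)
        (∑ i ∈ Finset.range (n + 1), (starRingEnd ℂ) ((W n x) i) * y i) := by
      apply hasSum_sum_of_ne_finset_zero
      intro i hi
      rw [hW, if_neg]
      · simp
      · simpa [Nat.lt_succ_iff] using hi
    have hb : HasSum (fun i => (starRingEnd ℂ) (x i) * (W n y) i)
        (∑ i ∈ Finset.range (n + 1), (starRingEnd ℂ) (x i) * (W n y) i) := by
      apply hasSum_sum_of_ne_finset_zero
      intro i hi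
      rw [hW, if_neg]
      · simp
      · simpa [Nat.lt_succ_iff] using hi
    rw [(hasSum_inner' _ _).unique ha, (hasSum_inner' _ _).unique hb, ← Finset.sum_range_reflect]
    refine Finset.sum_congr rfl fun i hi => ?_
    rw [Finset.mem_range, Nat.lt_succ_iff] at hi
    have hi2 : n - (n + 1 - 1 - i) = i := by omega
    have hi3 : n + 1 - 1 - i = n - i := by omega
    rw [hW, hW, if_pos (by omega), if_pos hi, hi2, hi3]
  have hexp : ∀ n j k, j ≤ n → k ≤ n → ⟪e j, Y n (e k)⟫_ℂ = ⟪e j, K (e k)⟫_ℂ +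
      ⟪e (n - j), K' (e (n - k))⟫_ℂ + ⟪e j, C n (e k)⟫_ℂ := by
    intro n j k hj hk
    rw [hY]
    simp only [add_apply, mul_apply_eq_comp]
    rw [inner_add_right, inner_add_right, P_e hP hk, W_e hW hk, ← inner_P hP, P_e hP hj,
      ← hWin, W_e hW hj]
  have hK0 : K = 0 := by
    apply eq_zero_of_inner
    intro j k
    have t1 : Tendsto (fun n => ⟪e j, Y n (e k)⟫_ℂ) atTop (𝓝 0) := by
      have := Tendsto.inner (𝕜 := ℂ) (tendsto_const_nhds (x := e j)) (h1 (e k))
      simpa using this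
    have t2 : Tendsto (fun n => ⟪e (n - j), K' (e (n - k))⟫_ℂ) atTop (𝓝 0) := by
      apply squeeze_zero_norm (a := fun n => ‖K' (e (n - k))‖)
      · intro n
        calc _ ≤ ‖e (n - j)‖ * ‖K' (e (n - k))‖ := norm_inner_le_norm _ _
          _ = _ := by rw [norm_e, one_mul]
      · have := ((compact_e hK').comp (tendsto_sub_atTop_nat k)).norm
        simpa using this
    have t3 := opNorm_tendsto_inner hC (fun _ => j) (fun _ => k)
    have t4 : Tendsto (fun n => ⟪e j, Y n (e k)⟫_ℂ - ⟪e (n - j), K' (e (n - k))⟫_ℂ -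
        ⟪e j, C n (e k)⟫_ℂ) atTop (𝓝 (0 - 0 - 0)) := (t1.sub t2).sub t3
    have t5 : Tendsto (fun _ : ℕ => ⟪e j, K (e k)⟫_ℂ) atTop (𝓝 (0 - 0 - 0)) := by
      refine t4.congr' ?_
      filter_upwards [eventually_ge_atTop (max j k)] with n hn
      rw [hexp n j k ((le_max_left _ _).trans hn) ((le_max_right _ _).trans hn)]
      ring
    have := tendsto_nhds_unique t5 tendsto_const_nhds
    simpa using this.symm
  have hK'0 : K' = 0 := by
    apply eq_zero_of_inner
    intro j k
    have t1 : Tendsto (fun n => ⟪e j, W n (Y n (W n (e k)))⟫_ℂ) atTop (𝓝 0) := by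
      have := Tendsto.inner (𝕜 := ℂ) (tendsto_const_nhds (x := e j)) (h2 (e k))
      simpa using this
    have t3 := opNorm_tendsto_inner hC (fun n => n - j) (fun n => n - k)
    have t4 := t1.sub t3
    have t5 : Tendsto (fun _ : ℕ => ⟪e j, K' (e k)⟫_ℂ) atTop (𝓝 (0 - 0)) := by
      refine t4.congr' ?_
      filter_upwards [eventually_ge_atTop (max j k)] with n hn
      have hj := (le_max_left _ _).trans hn
      have hk := (le_max_right _ _).trans hn
      rw [← hWin, W_e hW hj, W_e hW hk, hexp n (n - j) (n - k) (Nat.sub_le _ _) (Nat.sub_le _ _),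
        hK0, Nat.sub_sub_self hj, Nat.sub_sub_self hk]
      simp
    have := tendsto_nhds_unique t5 tendsto_const_nhds
    simpa using this.symm
  have : ∀ n, Y n = C n := by
    intro n
    rw [hY, hK0, hK'0]
    simp
  simp_rw [this]
  exact hC

end

lemma volume_eq : (volume : Measure (AddCircle (1 : ℝ))) = AddCircle.haarAddCircle := by
  rw [AddCircle.volume_eq_smul_haarAddCircle, ENNReal.ofReal_one, one_smul]

lemma memLp_top {f : AddCircle (1 : ℝ) → ℂ} (hf : Measurable f) (h : ∀ t, ‖f t‖ ≤ 1) :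
    MemLp f ⊤ (volume : Measure (AddCircle (1 : ℝ))) :=
  memLp_top_of_bound hf.aestronglyMeasurable 1 (Eventually.of_forall h)

lemma fourierCoeff_toLp_top {f : AddCircle (1 : ℝ) → ℂ} (hf : Measurable f)
    (h : ∀ t, ‖f t‖ ≤ 1) (n : ℤ) :
    fourierCoeff (⇑((memLp_top hf h).toLp f) : AddCircle (1 : ℝ) → ℂ) n = fourierCoeff f n := by
  have h1 : ∀ᵐ t ∂(AddCircle.haarAddCircle (T := (1 : ℝ))),
      (⇑((memLp_top hf h).toLp f) : AddCircle (1 : ℝ) → ℂ) t = f t := by
    rw [← volume_eq]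
    exact (memLp_top hf h).coeFn_toLp
  exact congrFun (fourierCoeff_congr_ae h1) n

lemma measurable_bdry_conj : Measurable (fun t => (starRingEnd ℂ) (bdry t)) :=
  Complex.continuous_conj.measurable.comp measurable_bdry

end Pool.Agent.L7h55.FS
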