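import Pool.Agent.L7h55.FS.Sect

set_option autoImplicit false

/-!
# The lower bound for the norm of `Z n`
-/

namespace Pool.Agent.L7h55.FS

open MeasureTheory Filter Topology
open scoped InnerProductSpace

lemma summable_geo {r : ℝ} (h0 : 0 ≤ r) (h1 : r < 1) : Summable (fun i : ℕ => ‖((r : ℂ)) ^ i‖ ^ 2) := by
  have h : Summable (fun i : ℕ => (r ^ 2) ^ i) :=
    summable_geometric_of_lt_one (by positivity) (by nlinarith)
  convert! h using 1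
  funext i
  rw [norm_pow, Complex.norm_real, Real.norm_of_nonneg h0, ← pow_mul, ← pow_mul, mul_comm]

/-- the Szegő kernel vector at the point `r` -/
noncomputable def kr (r : ℝ) (h0 : 0 ≤ r) (h1 : r < 1) : H :=
  ⟨fun i : ℕ => (r : ℂ) ^ i, memℓp_gen (by simpa using summable_geo h0 h1)⟩

variable {r : ℝ} (h0 : 0 ≤ r) (h1 : r < 1)

lemma kr_apply (i : ℕ) : kr r h0 h1 i = (r : ℂ) ^ i := rfl

lemma norm_kr_apply_sq (i : ℕ) : ‖kr r h0 h1 i‖ ^ 2 = (r ^ 2) ^ i := by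
  rw [kr_apply, norm_pow, Complex.norm_real, Real.norm_of_nonneg h0, ← pow_mul, ← pow_mul, mul_comm]

lemma norm_kr_sq : ‖kr r h0 h1‖ ^ 2 = (1 - r ^ 2)⁻¹ := by
  refine (hasSum_normsq (kr r h0 h1)).unique ?_
  simp_rw [norm_kr_apply_sq]
  exact hasSum_geometric_of_lt_one (by positivity) (by nlinarith)

lemma T'_kr : T' (kr r h0 h1) = (F r) • kr r h0 h1 := by
  apply H_ext
  intro j
  rw [T'_apply, lp.coeFn_smul, Pi.smul_apply, smul_eq_mul, kr_apply]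
  refine (hasSum_inner' _ _).unique ?_
  simp only [v_apply, s_real, kr_apply]
  rw [← hasSum_nat_add_iff' j]
  have h2 : ∑ i ∈ Finset.range j, s ((i : ℤ) - j) * (r : ℂ) ^ i = 0 := by
    apply Finset.sum_eq_zero
    intro i hi
    rw [Finset.mem_range] at hi
    rw [s_neg (by omega), zero_mul]
  rw [h2, sub_zero]
  have h3 := (hasSum_s h0 h1).mul_right ((r : ℂ) ^ j)
  convert! h3 using 1
  funext m
  have : ((m + j : ℕ) : ℤ) - (j : ℤ) = m := by push_cast; ring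
  rw [this, pow_add]
  ring

section

variable {P W : ℕ → H →L[ℂ] H} (hP : IsP P) (hW : IsW W)

include hP in
lemma norm_tail (n : ℕ) : ‖kr r h0 h1 - P n (kr r h0 h1)‖ = r ^ (n + 1) * ‖kr r h0 h1‖ := by
  have hs : ‖kr r h0 h1 - P n (kr r h0 h1)‖ ^ 2 = (r ^ (n + 1) * ‖kr r h0 h1‖) ^ 2 := by
    refine (hasSum_normsq _).unique ?_
    rw [← hasSum_nat_add_iff' (n + 1)]
    have h2 : ∑ i ∈ Finset.range (n + 1), ‖(kr r h0 h1 - P n (kr r h0 h1)) i‖ ^ 2 = 0 := by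
      apply Finset.sum_eq_zero
      intro i hi
      rw [Finset.mem_range, Nat.lt_succ_iff] at hi
      rw [lp.coeFn_sub, Pi.sub_apply, hP, if_pos hi, sub_self]
      simp
    rw [h2, sub_zero, mul_pow, norm_kr_sq]
    have h3 := (hasSum_geometric_of_lt_one (r := r ^ 2) (by positivity) (by nlinarith)).mul_left
      ((r ^ (n + 1)) ^ 2)
    convert! h3 using 1
    funext m
    rw [lp.coeFn_sub, Pi.sub_apply, hP, if_neg (by omega), sub_zero, norm_kr_apply_sq]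
    ring
  exact (pow_left_inj₀ (norm_nonneg _) (by positivity) two_ne_zero).mp hs

/-- the error -/
noncomputable def δ (r : ℝ) (n : ℕ) : ℝ := ‖F r‖ + r ^ (n + 1)

include hP in
lemma norm_A'_kr (n : ℕ) : ‖A' P n (kr r h0 h1)‖ ≤ δ r n * ‖kr r h0 h1‖ := by
  have e1 : A' P n (kr r h0 h1) = P n (T' (P n (kr r h0 h1))) := by
    unfold A'
    simp only [mul_apply_eq_comp]
  have e2 : T' (P n (kr r h0 h1)) = F r • kr r h0 h1 - T' (kr r h0 h1 - P n (kr r h0 h1)) := by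
    rw [map_sub, T'_kr]
    abel
  calc ‖A' P n (kr r h0 h1)‖ ≤ ‖T' (P n (kr r h0 h1))‖ := by rw [e1]; exact norm_P_le hP n _
    _ ≤ ‖F r • kr r h0 h1‖ + ‖T' (kr r h0 h1 - P n (kr r h0 h1))‖ := by
        rw [e2]; exact norm_sub_le _ _
    _ ≤ ‖F r‖ * ‖kr r h0 h1‖ + r ^ (n + 1) * ‖kr r h0 h1‖ := by
        rw [norm_smul]
        gcongr
        exact (norm_T'_le _).trans (norm_tail h0 h1 hP n).le
    _ = _ := by unfold δ; ring

include hP hW in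
lemma norm_A_W_kr (n : ℕ) : ‖A P n (W n (kr r h0 h1))‖ ≤ δ r n * ‖kr r h0 h1‖ := by
  rw [AW hP hW]
  exact (norm_W_le hP hW n _).trans (norm_A'_kr h0 h1 hP n)

include hP hW in
lemma inner_kr_W (n : ℕ) : ⟪P n (kr r h0 h1), W n (kr r h0 h1)⟫_ℂ = ((n + 1 : ℝ) * r ^ n : ℝ) := by
  have h : HasSum (fun i => (starRingEnd ℂ) ((P n (kr r h0 h1)) i) * (W n (kr r h0 h1)) i)
      (∑ i ∈ Finset.range (n + 1), (starRingEnd ℂ) ((P n (kr r h0 h1)) i) *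
        (W n (kr r h0 h1)) i) := by
    apply hasSum_sum_of_ne_finset_zero
    intro i hi
    rw [hP, if_neg]
    · simp
    · simpa [Nat.lt_succ_iff] using hi
  rw [(hasSum_inner' _ _).unique h]
  have h2 : ∀ i ∈ Finset.range (n + 1), (starRingEnd ℂ) ((P n (kr r h0 h1)) i) *
        (W n (kr r h0 h1)) i = (r : ℂ) ^ n := by
    intro i hi
    rw [Finset.mem_range, Nat.lt_succ_iff] at hi
    rw [hP, hW, if_pos hi, if_pos hi, kr_apply, kr_apply, map_pow, Complex.conj_ofReal, ← pow_add]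
    congr 1
    omega
  rw [Finset.sum_congr rfl h2]
  simp

include h0 h1 hP hW in
/-- the lower bound -/
lemma norm_Z_lower (n : ℕ) :
    (n + 1 : ℝ) * r ^ n * (1 - r ^ 2) - 2 * δ r n - δ r n ^ 2 ≤ ‖Z P n‖ := by
  set k := kr r h0 h1 with hk
  set x := P n k with hx
  set y := W n k with hy
  have hδ : 0 ≤ δ r n := by unfold δ; positivity
  have hPy : P n y = y := P_W hP hW n k
  have hxk : ‖x‖ ≤ ‖k‖ := norm_P_le hP n k
  have hyk : ‖y‖ ≤ ‖k‖ := norm_W_le hP hW n k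
  have hA'x : ‖A' P n x‖ ≤ δ r n * ‖k‖ := by
    rw [hx, A'_P hP]; exact norm_A'_kr h0 h1 hP n
  have hAy : ‖A P n y‖ ≤ δ r n * ‖k‖ := norm_A_W_kr h0 h1 hP hW n
  have hZ : Z P n y = y - A' P n (A P n y) - A P n (A' P n y) +
      A P n (A' P n (A' P n (A P n y))) := by
    rw [Z_apply, hPy, map_sub, map_sub, map_sub, hPy, P_A' hP]
    abel
  have hin : ⟪x, Z P n y⟫_ℂ = ⟪x, y⟫_ℂ - ⟪A P n x, A P n y⟫_ℂ - ⟪A' P n x, A' P n y⟫_ℂ +
      ⟪A' P n x, A' P n (A' P n (A P n y))⟫_ℂ := by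
    rw [hZ, inner_add_right, inner_sub_right, inner_sub_right, inner_A' hP n x (A P n y),
      inner_A hP n x (A' P n y), inner_A hP n x (A' P n (A' P n (A P n y)))]
  have hb1 : ‖⟪A P n x, A P n y⟫_ℂ‖ ≤ δ r n * ‖k‖ ^ 2 := by
    calc ‖⟪A P n x, A P n y⟫_ℂ‖ ≤ ‖A P n x‖ * ‖A P n y‖ := norm_inner_le_norm _ _
      _ ≤ ‖k‖ * (δ r n * ‖k‖) := by
          gcongr
          exact (norm_A_le hP n x).trans hxk
      _ = _ := by ring
  have hb2 : ‖⟪A' P n x, A' P n y⟫_ℂ‖ ≤ δ r n * ‖k‖ ^ 2 := by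
    calc ‖⟪A' P n x, A' P n y⟫_ℂ‖ ≤ ‖A' P n x‖ * ‖A' P n y‖ := norm_inner_le_norm _ _
      _ ≤ (δ r n * ‖k‖) * ‖k‖ := by
          gcongr
          exact (norm_A'_le hP n y).trans hyk
      _ = _ := by ring
  have hb3 : ‖⟪A' P n x, A' P n (A' P n (A P n y))⟫_ℂ‖ ≤ δ r n ^ 2 * ‖k‖ ^ 2 := by
    calc ‖⟪A' P n x, A' P n (A' P n (A P n y))⟫_ℂ‖ ≤ ‖A' P n x‖ * ‖A' P n (A' P n (A P n y))‖ :=
          norm_inner_le_norm _ _
      _ ≤ (δ r n * ‖k‖) * (δ r n * ‖k‖) := by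
          gcongr
          exact (norm_A'_le hP n _).trans ((norm_A'_le hP n _).trans hAy)
      _ = _ := by ring
  have hup : ‖⟪x, Z P n y⟫_ℂ‖ ≤ ‖Z P n‖ * ‖k‖ ^ 2 := by
    calc ‖⟪x, Z P n y⟫_ℂ‖ ≤ ‖x‖ * ‖Z P n y‖ := norm_inner_le_norm _ _
      _ ≤ ‖k‖ * (‖Z P n‖ * ‖k‖) := by
          gcongr
          exact ((Z P n).le_opNorm y).trans (by gcongr)
      _ = _ := by ring
  have hxy : ⟪x, y⟫_ℂ = ((n + 1 : ℝ) * r ^ n : ℝ) := inner_kr_W h0 h1 hP hW n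
  have hxyn : ‖⟪x, y⟫_ℂ‖ = (n + 1 : ℝ) * r ^ n := by
    rw [hxy, Complex.norm_real, Real.norm_of_nonneg (by positivity)]
  have hlow : (n + 1 : ℝ) * r ^ n - (2 * δ r n + δ r n ^ 2) * ‖k‖ ^ 2 ≤ ‖⟪x, Z P n y⟫_ℂ‖ := by
    have e : ⟪x, y⟫_ℂ = ⟪x, Z P n y⟫_ℂ + ⟪A P n x, A P n y⟫_ℂ + ⟪A' P n x, A' P n y⟫_ℂ -
        ⟪A' P n x, A' P n (A' P n (A P n y))⟫_ℂ := by rw [hin]; ring
    have h3 : ‖⟪x, y⟫_ℂ‖ ≤ ‖⟪x, Z P n y⟫_ℂ‖ + ‖⟪A P n x, A P n y⟫_ℂ‖ +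
        ‖⟪A' P n x, A' P n y⟫_ℂ‖ + ‖⟪A' P n x, A' P n (A' P n (A P n y))⟫_ℂ‖ := by
      rw [e]
      refine (norm_sub_le _ _).trans ?_
      gcongr
      exact norm_add₃_le
    rw [hxyn] at h3
    nlinarith
  have hk2 : ‖k‖ ^ 2 * (1 - r ^ 2) = 1 := by
    rw [hk, norm_kr_sq]
    apply inv_mul_cancel₀
    nlinarith
  have hr2 : 0 ≤ 1 - r ^ 2 := by nlinarith
  have h5 := mul_le_mul_of_nonneg_right (hlow.trans hup) hr2
  have h6 : ((n + 1 : ℝ) * r ^ n - (2 * δ r n + δ r n ^ 2) * ‖k‖ ^ 2) * (1 - r ^ 2) =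
      (n + 1 : ℝ) * r ^ n * (1 - r ^ 2) - (2 * δ r n + δ r n ^ 2) := by
    linear_combination (-(2 * δ r n + δ r n ^ 2)) * hk2
  have h7 : ‖Z P n‖ * ‖k‖ ^ 2 * (1 - r ^ 2) = ‖Z P n‖ := by
    linear_combination (‖Z P n‖) * hk2
  rw [h6, h7] at h5
  linarith

end

/-- the radii -/
noncomputable def rn (n : ℕ) : ℝ := 1 + (-2) / ((n + 1 : ℕ) : ℝ)

lemma rn_lt (n : ℕ) : rn n < 1 := by
  unfold rn
  have : (0 : ℝ) < 2 / ((n + 1 : ℕ) : ℝ) := by positivity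
  rw [neg_div]
  linarith

lemma rn_nonneg {n : ℕ} (hn : 1 ≤ n) : 0 ≤ rn n := by
  unfold rn
  have h2 : (2 : ℝ) ≤ ((n + 1 : ℕ) : ℝ) := by
    exact_mod_cast Nat.succ_le_succ hn
  have : (2 : ℝ) / ((n + 1 : ℕ) : ℝ) ≤ 1 := by
    rw [div_le_one (by positivity)]
    exact h2
  rw [neg_div]
  linarith

lemma tendsto_rn : Tendsto rn atTop (𝓝 1) := by
  unfold rn
  have h : Tendsto (fun n : ℕ => (-2 : ℝ) / ((n + 1 : ℕ) : ℝ)) atTop (𝓝 0) :=
    Tendsto.div_atTop tendsto_const_nhds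
      (tendsto_natCast_atTop_atTop.comp (tendsto_add_atTop_nat 1))
  simpa using h.const_add 1

lemma tendsto_rn_pow : Tendsto (fun n => rn n ^ (n + 1)) atTop (𝓝 (Real.exp (-2))) :=
  (Real.tendsto_one_add_div_pow_exp (-2)).comp (tendsto_add_atTop_nat 1)

lemma tendsto_rn_pow' : Tendsto (fun n => rn n ^ n) atTop (𝓝 (Real.exp (-2))) := by
  have h := tendsto_rn_pow.div tendsto_rn one_ne_zero
  rw [div_one] at h
  refine h.congr' ?_
  filter_upwards [eventually_ge_atTop 2] with n hn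
  have h3 : (0 : ℝ) < rn n := by
    unfold rn
    have h2 : (2 : ℝ) < ((n + 1 : ℕ) : ℝ) := by
      exact_mod_cast Nat.lt_succ_of_le hn
    have : (2 : ℝ) / ((n + 1 : ℕ) : ℝ) < 1 := by
      rw [div_lt_one (by positivity)]
      exact h2
    rw [neg_div]
    linarith
  simp only [Pi.div_apply]
  rw [pow_succ]
  field_simp

lemma tendsto_normF : Tendsto (fun n => ‖F (rn n)‖) atTop (𝓝 0) := by
  have h : ∀ n, ‖F (rn n)‖ = Real.exp (-((1 + rn n) * ((n + 1 : ℕ) : ℝ) / 2)) := by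
    intro n
    rw [norm_F_real (rn_lt n)]
    congr 1
    have : 1 - rn n = 2 / ((n + 1 : ℕ) : ℝ) := by unfold rn; ring
    rw [this]
    field_simp
  simp_rw [h]
  apply Real.tendsto_exp_neg_atTop_nhds_zero.comp
  apply Tendsto.atTop_div_const two_pos
  apply Tendsto.pos_mul_atTop (C := 2) two_pos
  · have := tendsto_rn.const_add 1
    norm_num at this
    exact this
  · exact tendsto_natCast_atTop_atTop.comp (tendsto_add_atTop_nat 1)

lemma tendsto_main : Tendsto (fun n : ℕ => ((n : ℝ) + 1) * rn n ^ n * (1 - rn n ^ 2)) atTop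
    (𝓝 (4 * Real.exp (-2))) := by
  have h : ∀ n : ℕ, ((n : ℝ) + 1) * rn n ^ n * (1 - rn n ^ 2) = 2 * (1 + rn n) * rn n ^ n := by
    intro n
    have h1 : 1 - rn n = 2 / ((n : ℝ) + 1) := by unfold rn; push_cast; ring
    have h2 : 1 - rn n ^ 2 = (1 + rn n) * (2 / ((n : ℝ) + 1)) := by rw [← h1]; ring
    rw [h2]
    have : (n : ℝ) + 1 ≠ 0 := by positivity
    field_simp
  simp_rw [h]
  have h3 := ((tendsto_rn.const_add 1).const_mul 2).mul tendsto_rn_pow'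
  convert! h3 using 2
  ring

lemma tendsto_δ : Tendsto (fun n => δ (rn n) n) atTop (𝓝 (Real.exp (-2))) := by
  unfold δ
  simpa using tendsto_normF.add tendsto_rn_pow

/-- The norms of `Z n` do not tend to zero. -/
theorem not_tendsto {P W : ℕ → H →L[ℂ] H} (hP : IsP P) (hW : IsW W) :
    ¬ Tendsto (fun n => ‖Z P n‖) atTop (𝓝 0) := by
  intro h
  have h1 : Tendsto (fun n : ℕ => ((n : ℝ) + 1) * rn n ^ n * (1 - rn n ^ 2) - 2 * δ (rn n) n -
      δ (rn n) n ^ 2) atTop (𝓝 (4 * Real.exp (-2) - 2 * Real.exp (-2) - Real.exp (-2) ^ 2)) :=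
    (tendsto_main.sub (tendsto_δ.const_mul 2)).sub (tendsto_δ.pow 2)
  have h2 : 4 * Real.exp (-2) - 2 * Real.exp (-2) - Real.exp (-2) ^ 2 ≤ 0 := by
    refine le_of_tendsto_of_tendsto h1 h ?_
    filter_upwards [eventually_ge_atTop 1] with n hn
    exact norm_Z_lower (rn_nonneg hn) (rn_lt n) hP hW n
  have h3 : 0 < Real.exp (-2) := Real.exp_pos _
  have h4 : Real.exp (-2) < 1 := by rw [Real.exp_lt_one_iff]; norm_num
  nlinarith

end Pool.Agent.L7h55.FS
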