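import Pool.Agent.L7h55.FS.Iso

set_option autoImplicit false

/-!
# Finite sections
-/

namespace Pool.Agent.L7h55.FS

open MeasureTheory Filter Topology
open scoped InnerProductSpace

/-- `P` is the family of the coordinate projections. -/
def IsP (P : ℕ → H →L[ℂ] H) : Prop :=
  ∀ (n : ℕ) (x : H) (j : ℕ), (P n x) j = if j ≤ n then x j else 0

/-- `W` is the family of the flips. -/
def IsW (W : ℕ → H →L[ℂ] H) : Prop :=
  ∀ (n : ℕ) (x : H) (j : ℕ), (W n x) j = if j ≤ n then x (n - j) else 0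

lemma coord_sum (t : Finset ℕ) (f : ℕ → ℂ) (i : ℕ) :
    (∑ j ∈ t, f j • e j) i = if i ∈ t then f i else 0 := by
  rw [lp.coeFn_sum, Finset.sum_apply]
  simp only [lp.coeFn_smul, Pi.smul_apply, e_apply, smul_eq_mul, mul_ite, mul_one, mul_zero]
  exact Finset.sum_ite_eq t i f

lemma exists_P : ∃ P, IsP P := by
  refine ⟨fun n => ∑ j ∈ Finset.range (n + 1), (innerSL ℂ (e j)).smulRight (e j), ?_⟩
  intro n x i
  have : (∑ j ∈ Finset.range (n + 1), (innerSL ℂ (e j)).smulRight (e j)) x =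
      ∑ j ∈ Finset.range (n + 1), (x j) • e j := by
    rw [sum_apply]
    refine Finset.sum_congr rfl fun j _ => ?_
    rw [ContinuousLinearMap.smulRight_apply, innerSL_apply_apply, inner_e]
  rw [this, coord_sum]
  simp only [Finset.mem_range, Nat.lt_succ_iff]

lemma exists_W : ∃ W, IsW W := by
  refine ⟨fun n => ∑ j ∈ Finset.range (n + 1), (innerSL ℂ (e (n - j))).smulRight (e j), ?_⟩
  intro n x i
  have : (∑ j ∈ Finset.range (n + 1), (innerSL ℂ (e (n - j))).smulRight (e j)) x =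
      ∑ j ∈ Finset.range (n + 1), (x (n - j)) • e j := by
    rw [sum_apply]
    refine Finset.sum_congr rfl fun j _ => ?_
    rw [ContinuousLinearMap.smulRight_apply, innerSL_apply_apply, inner_e]
  rw [this, coord_sum]
  simp only [Finset.mem_range, Nat.lt_succ_iff]

section

variable {P W : ℕ → H →L[ℂ] H} (hP : IsP P) (hW : IsW W)

include hP in
lemma P_eq_sum (n : ℕ) (x : H) : P n x = ∑ j ∈ Finset.range (n + 1), (x j) • e j := by
  apply H_ext
  intro i
  rw [hP, coord_sum]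
  simp only [Finset.mem_range, Nat.lt_succ_iff]

include hP in
lemma tendsto_P (x : H) : Tendsto (fun n => P n x) atTop (𝓝 x) := by
  have h := (lp.hasSum_single (p := 2) (by norm_num) x).tendsto_sum_nat
  have h2 := h.comp (tendsto_add_atTop_nat 1)
  refine h2.congr fun n => ?_
  rw [P_eq_sum hP]
  simp only [Function.comp]
  refine Finset.sum_congr rfl fun j _ => ?_
  unfold e
  rw [← lp.single_smul]
  simp

lemma norm_le_of_coord {x y : H} (h : ∀ i, ‖x i‖ ≤ ‖y i‖) : ‖x‖ ≤ ‖y‖ := by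
  have h1 := hasSum_normsq x
  have h2 := hasSum_normsq y
  have h3 : ‖x‖ ^ 2 ≤ ‖y‖ ^ 2 :=
    hasSum_le (fun i => pow_le_pow_left₀ (norm_nonneg _) (h i) 2) h1 h2
  exact (abs_le_of_sq_le_sq' h3 (norm_nonneg _)).2

include hP in
lemma norm_P_le (n : ℕ) (x : H) : ‖P n x‖ ≤ ‖x‖ := by
  apply norm_le_of_coord
  intro i
  rw [hP]
  split_ifs
  · exact le_rfl
  · simp

include hP hW in
lemma W_W (n : ℕ) (x : H) : W n (W n x) = P n x := by
  apply H_ext
  intro i
  rw [hW, hP]
  split_ifs with h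
  · rw [hW, if_pos (Nat.sub_le _ _), Nat.sub_sub_self h]
  · rfl

include hP hW in
lemma P_W (n : ℕ) (x : H) : P n (W n x) = W n x := by
  apply H_ext
  intro i
  rw [hP, hW]
  split_ifs <;> rfl

include hP hW in
lemma W_P (n : ℕ) (x : H) : W n (P n x) = W n x := by
  apply H_ext
  intro i
  rw [hW, hW]
  split_ifs with h
  · rw [hP, if_pos (Nat.sub_le _ _)]
  · rfl

include hP in
lemma P_P (n : ℕ) (x : H) : P n (P n x) = P n x := by
  apply H_ext
  intro i
  rw [hP, hP]
  split_ifs <;> rfl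

include hP hW in
lemma norm_W (n : ℕ) (x : H) : ‖W n x‖ = ‖P n x‖ := by
  have h1 := hasSum_normsq (W n x)
  have h2 := hasSum_normsq (P n x)
  have h1' : HasSum (fun i => ‖(W n x) i‖ ^ 2) (∑ i ∈ Finset.range (n + 1), ‖(W n x) i‖ ^ 2) := by
    apply hasSum_sum_of_ne_finset_zero
    intro i hi
    rw [hW, if_neg]
    · simp
    · simpa [Nat.lt_succ_iff] using hi
  have h2' : HasSum (fun i => ‖(P n x) i‖ ^ 2) (∑ i ∈ Finset.range (n + 1), ‖(P n x) i‖ ^ 2) := by
    apply hasSum_sum_of_ne_finset_zero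
    intro i hi
    rw [hP, if_neg]
    · simp
    · simpa [Nat.lt_succ_iff] using hi
  have h3 : ∑ i ∈ Finset.range (n + 1), ‖(W n x) i‖ ^ 2 =
      ∑ i ∈ Finset.range (n + 1), ‖(P n x) i‖ ^ 2 := by
    rw [← Finset.sum_range_reflect]
    refine Finset.sum_congr rfl fun i hi => ?_
    rw [Finset.mem_range, Nat.lt_succ_iff] at hi
    have hi2 : n - (n + 1 - 1 - i) = i := by omega
    rw [hW, hP, if_pos (by omega), if_pos hi, hi2]
  have h4 : ‖W n x‖ ^ 2 = ‖P n x‖ ^ 2 := by
    rw [h1.unique h1', h2.unique h2', h3]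
  exact (pow_left_inj₀ (norm_nonneg _) (norm_nonneg _) two_ne_zero).mp h4

include hP hW in
lemma norm_W_le (n : ℕ) (x : H) : ‖W n x‖ ≤ ‖x‖ := by
  rw [norm_W hP hW]; exact norm_P_le hP n x

include hP in
lemma inner_P (n : ℕ) (x y : H) : ⟪P n x, y⟫_ℂ = ⟪x, P n y⟫_ℂ := by
  refine (hasSum_inner' _ _).unique ?_
  convert! hasSum_inner' x (P n y) using 1
  funext i
  rw [hP, hP]
  split_ifs <;> simp

/-- sections of the Toeplitz operator -/
noncomputable def A (P : ℕ → H →L[ℂ] H) (n : ℕ) : H →L[ℂ] H := P n * T * P n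

/-- sections of the adjoint -/
noncomputable def A' (P : ℕ → H →L[ℂ] H) (n : ℕ) : H →L[ℂ] H := P n * T' * P n

include hP in
lemma A_apply (n : ℕ) (x : H) (i : ℕ) : (A P n x) i =
    if i ≤ n then ∑ k ∈ Finset.range (n + 1), x k * s ((i : ℤ) - k) else 0 := by
  unfold A
  rw [mul_apply_eq_comp, mul_apply_eq_comp, hP, P_eq_sum hP n x, map_sum]
  simp only [map_smul, T_e]
  rw [lp.coeFn_sum, Finset.sum_apply]
  simp only [lp.coeFn_smul, Pi.smul_apply, v_apply, smul_eq_mul]

include hP in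
lemma A'_apply (n : ℕ) (x : H) (i : ℕ) : (A' P n x) i =
    if i ≤ n then ∑ k ∈ Finset.range (n + 1), x k * s ((k : ℤ) - i) else 0 := by
  unfold A'
  rw [mul_apply_eq_comp, mul_apply_eq_comp, hP, P_eq_sum hP n x, map_sum]
  simp only [map_smul]
  rw [lp.coeFn_sum, Finset.sum_apply]
  simp only [lp.coeFn_smul, Pi.smul_apply, T'_e, smul_eq_mul]

include hP hW in
lemma WAW (n : ℕ) (x : H) : W n (A P n (W n x)) = A' P n x := by
  apply H_ext
  intro i
  rw [hW, A'_apply hP]
  split_ifs with h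
  · rw [A_apply hP, if_pos (Nat.sub_le _ _), ← Finset.sum_range_reflect]
    refine Finset.sum_congr rfl fun k hk => ?_
    rw [Finset.mem_range, Nat.lt_succ_iff] at hk
    have hk2 : n - (n + 1 - 1 - k) = k := by omega
    have hk3 : ((n - i : ℕ) : ℤ) - ((n + 1 - 1 - k : ℕ) : ℤ) = (k : ℤ) - i := by omega
    rw [hW, if_pos (by omega), hk2, hk3]
  · rfl

include hP hW in
lemma WA'W (n : ℕ) (x : H) : W n (A' P n (W n x)) = A P n x := by
  apply H_ext
  intro i
  rw [hW, A_apply hP]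
  split_ifs with h
  · rw [A'_apply hP, if_pos (Nat.sub_le _ _), ← Finset.sum_range_reflect]
    refine Finset.sum_congr rfl fun k hk => ?_
    rw [Finset.mem_range, Nat.lt_succ_iff] at hk
    have hk2 : n - (n + 1 - 1 - k) = k := by omega
    have hk3 : ((n + 1 - 1 - k : ℕ) : ℤ) - ((n - i : ℕ) : ℤ) = (i : ℤ) - k := by omega
    rw [hW, if_pos (by omega), hk2, hk3]
  · rfl

include hP in
lemma A_P (n : ℕ) (x : H) : A P n (P n x) = A P n x := by
  unfold A
  simp only [mul_apply_eq_comp, P_P hP]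

include hP in
lemma A'_P (n : ℕ) (x : H) : A' P n (P n x) = A' P n x := by
  unfold A'
  simp only [mul_apply_eq_comp, P_P hP]

include hP in
lemma P_A (n : ℕ) (x : H) : P n (A P n x) = A P n x := by
  unfold A
  simp only [mul_apply_eq_comp, P_P hP]

include hP in
lemma P_A' (n : ℕ) (x : H) : P n (A' P n x) = A' P n x := by
  unfold A'
  simp only [mul_apply_eq_comp, P_P hP]

include hP hW in
lemma AW (n : ℕ) (x : H) : A P n (W n x) = W n (A' P n x) := by
  rw [← WAW hP hW, W_W hP hW, P_A hP]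

include hP hW in
lemma A'W (n : ℕ) (x : H) : A' P n (W n x) = W n (A P n x) := by
  rw [← WA'W hP hW, W_W hP hW, P_A' hP]

include hP in
lemma norm_A_le (n : ℕ) (x : H) : ‖A P n x‖ ≤ ‖x‖ := by
  unfold A
  simp only [mul_apply_eq_comp]
  exact (norm_P_le hP n _).trans ((norm_T _).le.trans (norm_P_le hP n x))

include hP in
lemma norm_A'_le (n : ℕ) (x : H) : ‖A' P n x‖ ≤ ‖x‖ := by
  unfold A'
  simp only [mul_apply_eq_comp]
  exact (norm_P_le hP n _).trans ((norm_T'_le _).trans (norm_P_le hP n x))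

include hP in
lemma inner_A (n : ℕ) (x y : H) : ⟪x, A P n y⟫_ℂ = ⟪A' P n x, y⟫_ℂ := by
  unfold A A' T'
  simp only [mul_apply_eq_comp]
  rw [← inner_P hP n x, inner_P hP n _ y, ContinuousLinearMap.adjoint_inner_left]

include hP in
lemma inner_A' (n : ℕ) (x y : H) : ⟪x, A' P n y⟫_ℂ = ⟪A P n x, y⟫_ℂ := by
  rw [← inner_conj_symm, ← inner_A hP, inner_conj_symm]

/-- the sequence `(1 - A A*) (1 - A* A)` -/
noncomputable def Z (P : ℕ → H →L[ℂ] H) (n : ℕ) : H →L[ℂ] H :=
  (P n - A P n * A' P n) * (P n - A' P n * A P n)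

lemma Z_apply (P : ℕ → H →L[ℂ] H) (n : ℕ) (x : H) : Z P n x =
    P n (P n x - A' P n (A P n x)) - A P n (A' P n (P n x - A' P n (A P n x))) := by
  unfold Z
  simp only [mul_apply_eq_comp, sub_apply]

include hP hW in
/-- the reversed sequence -/
lemma WZW (n : ℕ) (x : H) : W n (Z P n (W n x)) =
    P n (P n x - A P n (A' P n x)) - A' P n (A P n (P n x - A P n (A' P n x))) := by
  rw [Z_apply, P_W hP hW, AW hP hW, A'W hP hW, ← map_sub, P_W hP hW, A'W hP hW, AW hP hW,
    ← map_sub, W_W hP hW, map_sub, P_A' hP, map_sub (P n), map_sub (P n), P_P hP, P_A hP,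
    map_sub (A P n) (P n x), A_P hP, ← map_sub (A P n)]

end

end Pool.Agent.L7h55.FS
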